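import Pool.Agent.Helper31.HT.Walk

/-!
A configuration of three permutations which produces infinitely many commuting lamps permuted by a
transient walk.
-/

set_option autoImplicit false

namespace Pool.Agent.Helper31.HT

open Pool.Agent.R499.HT

/-- the states `s⁻ᵏ tⁿ s t^{m₁} s t^{m₂} ⋯` -/
structure St where
  k : ℕ
  n : ℤ
  L : List ℤ
  h : k = 0 ∨ n ≠ 0 ∨ L = []

namespace St

/-- left multiplication by `s` -/
def S : St → St
  | ⟨0, n, L, _⟩ => ⟨0, 0, n :: L, Or.inl rfl⟩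
  | ⟨k + 1, n, L, h⟩ => ⟨k, n, L, Or.inr (h.resolve_left (Nat.succ_ne_zero k))⟩

/-- left multiplication by `s⁻¹` -/
def S' : St → St
  | ⟨0, n, [], _⟩ => ⟨1, n, [], Or.inr (Or.inr rfl)⟩
  | ⟨0, n, m :: L, _⟩ => if hn : n = 0 then ⟨0, m, L, Or.inl rfl⟩
      else ⟨1, n, m :: L, Or.inr (Or.inl hn)⟩
  | ⟨k + 1, n, L, h⟩ => ⟨k + 2, n, L, Or.inr (h.resolve_left (Nat.succ_ne_zero k))⟩

/-- left multiplication by `t ^ j` -/
def T (j : ℤ) : St → St
  | ⟨0, n, L, _⟩ => ⟨0, n + j, L, Or.inl rfl⟩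
  | ⟨k + 1, n, L, h⟩ => ⟨k + 1, n, L, h⟩

theorem S'_S (ω : St) : S' (S ω) = ω := by
  obtain ⟨k, n, L, h⟩ := ω
  cases k with
  | zero => simp [S, S']
  | succ k =>
    have h' := h.resolve_left (Nat.succ_ne_zero k)
    cases k with
    | zero =>
      cases L with
      | nil => simp [S, S']
      | cons m L =>
        have hn : n ≠ 0 := h'.resolve_right (by simp)
        simp [S, S', hn]
    | succ k => simp [S, S']

theorem S_S' (ω : St) : S (S' ω) = ω := by
  obtain ⟨k, n, L, h⟩ := ω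
  cases k with
  | zero =>
    cases L with
    | nil => simp [S, S']
    | cons m L =>
      by_cases hn : n = 0
      · simp [S, S', hn]
      · simp [S, S', hn]
  | succ k => simp [S, S']

theorem T_T (i j : ℤ) (hij : i + j = 0) (ω : St) : T i (T j ω) = ω := by
  obtain ⟨k, n, L, h⟩ := ω
  cases k with
  | zero =>
    have : n + j + i = n := by omega
    simp [T, this]
  | succ k => simp [T]

/-- the height of a list -/
def hgt : List ℤ → ℕ
  | [] => 0
  | m :: L => m.natAbs + 1 + hgt L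

/-- the superharmonic function -/
noncomputable def V (ω : St) : ℝ := (1 / 2) ^ (ω.n.natAbs + hgt ω.L)

/-- the base state -/
def o : St := ⟨0, 0, [], Or.inl rfl⟩

/-- the action -/
def act : Fin 4 → St → St := ![S, S', T 1, T (-1)]

/-- the inverse of a generator -/
def iv : Fin 4 → Fin 4 := ![1, 0, 3, 2]

theorem V_nonneg (ω : St) : 0 ≤ V ω := by unfold V; positivity

theorem V_super (ω : St) : ∑ i, V (act i ω) ≤ 4 * V ω := by
  rw [Fin.sum_univ_four]
  change V (S ω) + V (S' ω) + V (T 1 ω) + V (T (-1) ω) ≤ 4 * V ω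
  obtain ⟨k, n, L, h⟩ := ω
  cases k with
  | succ k =>
    simp only [S, S', T, V]
    linarith
  | zero =>
    have e1 : V (S ⟨0, n, L, h⟩) = (1 / 2) * (1 / 2) ^ n.natAbs * (1 / 2) ^ hgt L := by
      simp only [S, V, hgt, Int.natAbs_zero, zero_add]
      rw [pow_add, pow_add]
      ring
    have e2 : V (T 1 ⟨0, n, L, h⟩) = (1 / 2) ^ (n + 1).natAbs * (1 / 2) ^ hgt L := by
      simp only [T, V]
      rw [pow_add]
    have e3 : V (T (-1) ⟨0, n, L, h⟩) = (1 / 2) ^ (n - 1).natAbs * (1 / 2) ^ hgt L := by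
      simp only [T, V]
      rw [pow_add]
      rfl
    have e4 : V ⟨0, n, L, h⟩ = (1 / 2) ^ n.natAbs * (1 / 2) ^ hgt L := by
      simp only [V]
      rw [pow_add]
    have hq : (0 : ℝ) < (1 / 2) ^ hgt L := by positivity
    by_cases hn : n = 0
    · subst hn
      have e5 : V (S' ⟨0, 0, L, h⟩) ≤ 2 * (1 / 2) ^ hgt L := by
        cases L with
        | nil =>
          simp only [S', V, hgt]
          norm_num
        | cons m L =>
          simp only [S', V, hgt, dif_pos]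
          rw [pow_add, pow_add, pow_add]
          apply le_of_eq
          ring
      rw [e1, e2, e3, e4]
      norm_num at e5 ⊢
      nlinarith
    · have e5 : V (S' ⟨0, n, L, h⟩) = (1 / 2) ^ n.natAbs * (1 / 2) ^ hgt L := by
        cases L with
        | nil =>
          simp only [S', V]
          rw [pow_add]
        | cons m L =>
          simp only [S', V, dif_neg hn]
          rw [pow_add]
      rw [e1, e2, e3, e4, e5]
      rcases lt_or_gt_of_ne hn with hn | hn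
      · obtain ⟨N, hN⟩ : ∃ N : ℕ, n = -(N : ℤ) - 1 := ⟨(-n - 1).toNat, by omega⟩
        have f1 : n.natAbs = N + 1 := by omega
        have f2 : (n + 1).natAbs = N := by omega
        have f3 : (n - 1).natAbs = N + 2 := by omega
        rw [f1, f2, f3, pow_succ, pow_add]
        apply le_of_eq
        ring
      · obtain ⟨N, hN⟩ : ∃ N : ℕ, n = (N : ℤ) + 1 := ⟨(n - 1).toNat, by omega⟩
        have f1 : n.natAbs = N + 1 := by omega
        have f2 : (n + 1).natAbs = N + 2 := by omega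
        have f3 : (n - 1).natAbs = N := by omega
        rw [f1, f2, f3, pow_succ, pow_add]
        apply le_of_eq
        ring

theorem V_o : 1 ≤ V o := by simp [V, o, hgt]

theorem V_gap : ∑ i, V (act i o) ≤ 5 / 2 := by
  rw [Fin.sum_univ_four]
  change V (S o) + V (S' o) + V (T 1 o) + V (T (-1) o) ≤ 5 / 2
  simp [S, S', T, V, o, hgt]
  norm_num

end St

/-- a configuration of three permutations -/
structure Conf (G : Type) [Group G] (X : Type) where
  ρ : G →* Equiv.Perm X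
  inj : Function.Injective ρ
  a : G
  s : G
  t : G
  D : Set X
  E : Set X
  J : Set X
  Lf : Set X
  ED : ∀ y ∈ E, y ∈ D
  JE : ∀ y ∈ J, y ∈ E
  sE : ∀ y ∈ D, ρ s y ∈ E
  sJ : ∀ y ∈ D, ρ s y ∉ J
  tD : ∀ y, ρ t y ∈ D ↔ y ∈ D
  tE : ∀ y ∈ E, ρ t y ∈ Lf
  tL : ∀ y ∈ Lf, ρ t y ∈ Lf
  LE : ∀ y ∈ Lf, y ∉ E
  t_fix : ∀ y, y ∉ D → ρ t y = y
  a_fix : ∀ y, y ∉ J → ρ a y = y
  y0 : X
  y0J : y0 ∈ J
  a_inf : ∀ k : ℤ, ρ (a ^ k) y0 = y0 → k = 0

namespace Conf

variable {G : Type} [Group G] {X : Type} (C : Conf G X)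

theorem mul_app (g h : G) (y : X) : C.ρ (g * h) y = C.ρ g (C.ρ h y) := by
  rw [map_mul, Equiv.Perm.mul_apply]

theorem one_app (y : X) : C.ρ 1 y = y := by
  rw [map_one, Equiv.Perm.one_apply]

theorem inv_app (g : G) (y : X) : C.ρ g⁻¹ (C.ρ g y) = y := by
  rw [← mul_app, inv_mul_cancel, one_app]

theorem app_inv (g : G) (y : X) : C.ρ g (C.ρ g⁻¹ y) = y := by
  rw [← mul_app, mul_inv_cancel, one_app]

theorem tDn (n : ℤ) (y : X) : C.ρ (C.t ^ n) y ∈ C.D ↔ y ∈ C.D := by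
  induction n generalizing y with
  | zero => rw [zpow_zero, one_app]
  | succ n ih => rw [zpow_add_one, mul_app, ih, C.tD]
  | pred n ih =>
    rw [zpow_sub_one, mul_app, ih, ← C.tD, app_inv]

theorem tL' (n : ℕ) {y : X} (hy : y ∈ C.E) : C.ρ (C.t ^ (n + 1)) y ∈ C.Lf := by
  induction n with
  | zero => rw [zero_add, pow_one]; exact C.tE y hy
  | succ n ih => rw [pow_succ', mul_app]; exact C.tL _ ih

theorem t_zero (n : ℤ) {y : X} (hy : y ∈ C.E) (h : C.ρ (C.t ^ n) y ∈ C.E) : n = 0 := by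
  rcases lt_trichotomy n 0 with hn | hn | hn
  · exfalso
    obtain ⟨N, hN⟩ : ∃ N : ℕ, n = -((N + 1 : ℕ) : ℤ) := ⟨(-n - 1).toNat, by omega⟩
    have h1 := C.tL' N h
    rw [← mul_app, hN, ← zpow_natCast, ← zpow_add, add_neg_cancel, zpow_zero, one_app] at h1
    exact C.LE y h1 hy
  · exact hn
  · exfalso
    obtain ⟨N, hN⟩ : ∃ N : ℕ, n = ((N + 1 : ℕ) : ℤ) := ⟨(n - 1).toNat, by omega⟩
    have h1 := C.tL' N hy
    rw [hN, zpow_natCast] at h
    exact C.LE _ h1 h

/-- the inner words `s t^{m₁} s t^{m₂} ⋯` -/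
def gj : List ℤ → G
  | [] => 1
  | m :: L => C.s * (C.t ^ m * gj L)

/-- the word of a state -/
def g (ω : St) : G := (C.s ^ ω.k)⁻¹ * (C.t ^ ω.n * C.gj ω.L)

/-- the lamp of a state -/
def c (ω : St) : G := C.g ω * C.a * (C.g ω)⁻¹

theorem gj_mem (L : List ℤ) {x : X} (hx : x ∈ C.J) : C.ρ (C.gj L) x ∈ C.E := by
  induction L with
  | nil => rw [gj, one_app]; exact C.JE x hx
  | cons m L ih =>
    rw [gj, mul_app, mul_app]
    exact C.sE _ ((C.tDn m _).2 (C.ED _ ih))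

theorem sD (k : ℕ) {y : X} (hy : y ∈ C.D) : C.ρ (C.s ^ k) y ∈ C.D := by
  induction k with
  | zero => rw [pow_zero, one_app]; exact hy
  | succ k ih => rw [pow_succ', mul_app]; exact C.ED _ (C.sE _ ih)

theorem not_mem (k : ℕ) (n : ℤ) (L : List ℤ) (h : n ≠ 0 ∨ L = []) {x : X} (hx : x ∈ C.J) :
    C.ρ ((C.s ^ (k + 1))⁻¹ * (C.t ^ n * C.gj L)) x ∉ C.D := by
  intro hD
  set y := C.ρ ((C.s ^ (k + 1))⁻¹ * (C.t ^ n * C.gj L)) x with hy
  have h1 : C.ρ (C.s ^ (k + 1)) y = C.ρ (C.t ^ n) (C.ρ (C.gj L) x) := by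
    rw [hy, ← mul_app, mul_inv_cancel_left, mul_app]
  rw [pow_succ', mul_app] at h1
  have h2 := C.sE _ (C.sD k hD)
  have h3 := C.sJ _ (C.sD k hD)
  rw [h1] at h2 h3
  have h4 := C.t_zero n (C.gj_mem L hx) h2
  subst h4
  have h5 : L = [] := h.resolve_left (by simp)
  subst h5
  rw [gj, zpow_zero, one_app, one_app] at h3
  exact h3 hx

theorem inner_inj (L : List ℤ) : ∀ (L' : List ℤ) (n n' : ℤ) {x x' : X}, x ∈ C.J → x' ∈ C.J →
    C.ρ (C.t ^ n * C.gj L) x = C.ρ (C.t ^ n' * C.gj L') x' → n = n' ∧ L = L' := by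
  induction L with
  | nil =>
    intro L' n n' x x' hx hx' h
    rw [mul_app, mul_app] at h
    have h1 : C.ρ (C.t ^ (n' - n)) (C.ρ (C.gj L') x') = C.ρ (C.gj []) x := by
      rw [sub_eq_neg_add, zpow_add, mul_app, ← h, zpow_neg, inv_app]
    have h2 := C.t_zero (n' - n) (C.gj_mem L' hx') (by rw [h1]; exact C.gj_mem [] hx)
    refine ⟨by omega, ?_⟩
    rw [h2, zpow_zero, one_app] at h1
    cases L' with
    | nil => rfl
    | cons m L' =>
      exfalso
      rw [gj, gj, one_app, mul_app, mul_app] at h1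
      refine C.sJ _ ((C.tDn m _).2 (C.ED _ (C.gj_mem L' hx'))) ?_
      rw [h1]
      exact hx
  | cons m L ih =>
    intro L' n n' x x' hx hx' h
    rw [mul_app, mul_app] at h
    have h1 : C.ρ (C.t ^ (n' - n)) (C.ρ (C.gj L') x') = C.ρ (C.gj (m :: L)) x := by
      rw [sub_eq_neg_add, zpow_add, mul_app, ← h, zpow_neg, inv_app]
    have h2 := C.t_zero (n' - n) (C.gj_mem L' hx') (by rw [h1]; exact C.gj_mem _ hx)
    rw [h2, zpow_zero, one_app] at h1
    cases L' with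
    | nil =>
      exfalso
      rw [gj, gj, one_app, mul_app, mul_app] at h1
      refine C.sJ _ ((C.tDn m _).2 (C.ED _ (C.gj_mem L hx))) ?_
      rw [← h1]
      exact hx'
    | cons m' L' =>
      rw [gj, gj, C.mul_app C.s, C.mul_app C.s] at h1
      have h3 := (C.ρ C.s).injective h1
      obtain ⟨h4, h5⟩ := ih L' m m' hx hx' h3.symm
      exact ⟨by omega, by rw [h4, h5]⟩

theorem g_inj (ω ω' : St) {x x' : X} (hx : x ∈ C.J) (hx' : x' ∈ C.J)
    (h : C.ρ (C.g ω) x = C.ρ (C.g ω') x') : ω = ω' := by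
  have key : ∀ (ω ω' : St) (x x' : X), x ∈ C.J → x' ∈ C.J →
      C.ρ (C.g ω) x = C.ρ (C.g ω') x' → ω'.k ≤ ω.k := by
    intro ω ω' x x' hx hx' h
    by_contra hlt
    rw [not_le] at hlt
    obtain ⟨j, hj⟩ : ∃ j, ω'.k = ω.k + (j + 1) := ⟨ω'.k - ω.k - 1, by omega⟩
    have h1 : C.ρ (C.t ^ ω.n * C.gj ω.L) x =
        C.ρ ((C.s ^ (j + 1))⁻¹ * (C.t ^ ω'.n * C.gj ω'.L)) x' := by
      have h2 : C.t ^ ω.n * C.gj ω.L = C.s ^ ω.k * C.g ω := by
        rw [g, mul_inv_cancel_left]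
      have h3 : (C.s ^ (j + 1))⁻¹ * (C.t ^ ω'.n * C.gj ω'.L) = C.s ^ ω.k * C.g ω' := by
        rw [g, hj, pow_add C.s ω.k, mul_inv_rev]
        have : Commute (C.s ^ ω.k) (C.s ^ (j + 1))⁻¹ :=
          (Commute.pow_pow_self C.s ω.k (j + 1)).inv_right
        rw [mul_assoc, ← mul_assoc (C.s ^ ω.k), this.eq, mul_assoc, mul_inv_cancel_left]
      rw [h2, h3, mul_app, mul_app, h]
    have h4 : ω'.n ≠ 0 ∨ ω'.L = [] := ω'.h.resolve_left (by omega)
    refine C.not_mem j ω'.n ω'.L h4 hx' ?_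
    rw [← h1, mul_app]
    exact (C.tDn _ _).2 (C.ED _ (C.gj_mem _ hx))
  have hk : ω.k = ω'.k := le_antisymm (key ω' ω x' x hx' hx h.symm) (key ω ω' x x' hx hx' h)
  have h1 : C.ρ (C.t ^ ω.n * C.gj ω.L) x = C.ρ (C.t ^ ω'.n * C.gj ω'.L) x' := by
    rw [g, g, hk, mul_app, mul_app C ((C.s ^ ω'.k)⁻¹)] at h
    exact (C.ρ _).injective h
  obtain ⟨h2, h3⟩ := C.inner_inj ω.L ω'.L ω.n ω'.n hx hx' h1
  obtain ⟨k, n, L, hh⟩ := ω
  obtain ⟨k', n', L', hh'⟩ := ω'
  simp only at hk h2 h3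
  subst hk
  subst h2
  subst h3
  rfl

theorem c_fix (ω : St) {y : X} (h : ∀ x ∈ C.J, C.ρ (C.g ω) x ≠ y) : C.ρ (C.c ω) y = y := by
  have h1 : C.ρ (C.g ω)⁻¹ y ∉ C.J := fun h2 => h _ h2 (C.app_inv _ _)
  rw [c, mul_app, mul_app, C.a_fix _ h1, app_inv]

theorem comm_of {g h : G} (H : ∀ y, C.ρ g y = y ∨ C.ρ h y = y) : Commute g h := by
  have h1 : (C.ρ g).Disjoint (C.ρ h) := H
  have h2 := h1.commute
  apply C.inj
  rw [map_mul, map_mul]
  exact h2.eq

theorem comm (ω ω' : St) : Commute (C.c ω) (C.c ω') := by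
  by_cases h : ω = ω'
  · rw [h]
  · refine C.comm_of fun y => ?_
    by_cases h1 : ∀ x ∈ C.J, C.ρ (C.g ω) x ≠ y
    · exact Or.inl (C.c_fix ω h1)
    · refine Or.inr (C.c_fix ω' ?_)
      intro x' hx' h2
      push Not at h1
      obtain ⟨x, hx, h3⟩ := h1
      exact h (C.g_inj ω ω' hx hx' (h3.trans h2.symm))

theorem g_S (ω : St) : C.g (St.S ω) = C.s * C.g ω := by
  obtain ⟨k, n, L, h⟩ := ω
  cases k with
  | zero => simp [St.S, g, gj]
  | succ k =>
    simp only [St.S, g]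
    rw [pow_succ', mul_inv_rev, mul_assoc, ← mul_assoc C.s, ((Commute.refl C.s).pow_right
      k).inv_right.eq, mul_assoc, mul_inv_cancel_left]

theorem g_S' (ω : St) : C.g (St.S' ω) = C.s⁻¹ * C.g ω := by
  have h := C.g_S (St.S' ω)
  rw [St.S_S'] at h
  rw [h, inv_mul_cancel_left]

theorem c_S (ω : St) : C.s * C.c ω = C.c (St.S ω) * C.s := by
  rw [c, c, g_S]; group

theorem c_S' (ω : St) : C.s⁻¹ * C.c ω = C.c (St.S' ω) * C.s⁻¹ := by
  rw [c, c, g_S']; group

theorem t_comm (k : ℕ) (n : ℤ) (L : List ℤ) (h : k + 1 = 0 ∨ n ≠ 0 ∨ L = []) :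
    Commute C.t (C.c ⟨k + 1, n, L, h⟩) := by
  refine C.comm_of fun y => ?_
  by_cases h1 : ∀ x ∈ C.J, C.ρ (C.g ⟨k + 1, n, L, h⟩) x ≠ y
  · exact Or.inr (C.c_fix _ h1)
  · left
    push Not at h1
    obtain ⟨x, hx, h3⟩ := h1
    refine C.t_fix y ?_
    rw [← h3]
    exact C.not_mem k n L (h.resolve_left (Nat.succ_ne_zero k)) hx

theorem c_T (j : ℤ) (ω : St) : C.t ^ j * C.c ω = C.c (St.T j ω) * C.t ^ j := by
  obtain ⟨k, n, L, h⟩ := ω
  cases k with
  | zero =>
    have h1 : C.g (St.T j ⟨0, n, L, h⟩) = C.t ^ j * C.g ⟨0, n, L, h⟩ := by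
      simp only [St.T, g, pow_zero, inv_one, one_mul]
      rw [add_comm, zpow_add, mul_assoc]
    rw [c, c, h1]; group
  | succ k =>
    exact ((C.t_comm k n L h).zpow_left j).eq

/-- evaluation of a product of powers -/
theorem zz_eval {m : ℕ} (c : Fin m → G) (k : Fin m → ℤ) (i : Fin m) (y : X)
    (h : ∀ j, j ≠ i → ∀ n : ℤ, C.ρ (c j) (C.ρ (c i ^ n) y) = C.ρ (c i ^ n) y) :
    C.ρ (zz c k) y = C.ρ (c i ^ k i) y := by
  have hz : ∀ (g : G) (z : X), C.ρ g z = z → ∀ n : ℤ, C.ρ (g ^ n) z = z := by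
    intro g z hg n
    rw [map_zpow]
    exact Equiv.Perm.zpow_apply_eq_self_of_apply_eq_self hg n
  induction m with
  | zero => exact i.elim0
  | succ m ih =>
    rw [zz_succ, mul_app]
    by_cases hi : i = 0
    · subst hi
      congr 1
      have h1 : ∀ (m : ℕ) (c : Fin m → G) (k : Fin m → ℤ), (∀ j, C.ρ (c j) y = y) →
          C.ρ (zz c k) y = y := by
        intro m
        induction m with
        | zero => intro c k _; rw [zz_zero, one_app]
        | succ m ih2 =>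
          intro c k hc
          rw [zz_succ, mul_app, ih2 _ _ fun j => hc _, hz _ _ (hc 0)]
      refine h1 _ _ _ fun j => ?_
      have h2 := h j.succ (Fin.succ_ne_zero j) 0
      rwa [zpow_zero, one_app] at h2
    · obtain ⟨i', rfl⟩ := Fin.exists_succ_eq.2 hi
      rw [ih (fun i => c i.succ) (fun i => k i.succ) i' (fun j hj n => h j.succ
        (fun h3 => hj (Fin.succ_injective _ h3)) n)]
      exact hz _ _ (h 0 (Fin.succ_ne_zero i').symm _) _

theorem aJ {y : X} (hy : y ∈ C.J) (k : ℤ) : C.ρ (C.a ^ k) y ∈ C.J := by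
  by_contra h
  have h1 := C.a_fix _ h
  have h2 : C.ρ (C.a ^ (-k)) (C.ρ (C.a ^ k) y) = C.ρ (C.a ^ k) y := by
    rw [map_zpow]
    exact Equiv.Perm.zpow_apply_eq_self_of_apply_eq_self h1 _
  rw [← mul_app, ← zpow_add, neg_add_cancel, zpow_zero, one_app] at h2
  rw [← h2] at h
  exact h hy

theorem c_zpow (ω : St) (k : ℤ) : C.c ω ^ k = C.g ω * C.a ^ k * (C.g ω)⁻¹ := by
  rw [c, conj_zpow]

theorem zz_inj (L : List St) (hL : L.Nodup) :
    Function.Injective (zz (fun i : Fin L.length => C.c (L.get i))) := by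
  have h0 : ∀ k : Fin L.length → ℤ, zz (fun i : Fin L.length => C.c (L.get i)) k = 1 →
      ∀ i, k i = 0 := by
    intro k hk i
    have h1 := C.zz_eval (fun i : Fin L.length => C.c (L.get i)) k i
      (C.ρ (C.g (L.get i)) C.y0) (by
        intro j hj n
        have e1 : C.ρ (C.c (L.get i) ^ n) (C.ρ (C.g (L.get i)) C.y0) =
            C.ρ (C.g (L.get i)) (C.ρ (C.a ^ n) C.y0) := by
          rw [C.c_zpow, ← mul_app, inv_mul_cancel_right, mul_app]
        rw [e1]
        refine C.c_fix _ ?_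
        intro x hx h2
        have h3 := C.g_inj _ _ hx (C.aJ C.y0J n) h2
        exact hj (List.Nodup.injective_get hL h3))
    rw [hk, one_app, C.c_zpow, ← mul_app, inv_mul_cancel_right, mul_app] at h1
    exact C.a_inf _ ((C.ρ _).injective h1.symm)
  intro k k' h
  have h1 := h0 (fun i => k i + - k' i) (by
    rw [← zz_mul _ (fun i j => C.comm _ _), h, ← zz_inv _ (fun i j => C.comm _ _),
      mul_inv_cancel])
  funext i
  have := h1 i
  omega

/-- the generators -/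
def gen : Fin 4 → G := ![C.s, C.s⁻¹, C.t ^ (1 : ℤ), C.t ^ (-1 : ℤ)]

/-- the lamps of a configuration -/
noncomputable def wd : WD G St where
  gen := C.gen
  inv := St.iv
  inv_inv := by decide
  gen_inv := by
    intro i
    fin_cases i
    · rfl
    · exact (inv_inv C.s).symm
    · change C.t ^ (-1 : ℤ) = (C.t ^ (1 : ℤ))⁻¹
      rw [zpow_neg]
    · change C.t ^ (1 : ℤ) = (C.t ^ (-1 : ℤ))⁻¹
      rw [zpow_neg, inv_inv]
  act := St.act
  act_inv := by
    intro i ω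
    fin_cases i
    · exact St.S'_S ω
    · exact St.S_S' ω
    · exact St.T_T (-1) 1 (by norm_num) ω
    · exact St.T_T 1 (-1) (by norm_num) ω
  c := C.c
  c_act := by
    intro i ω
    fin_cases i
    · exact C.c_S ω
    · exact C.c_S' ω
    · exact C.c_T 1 ω
    · exact C.c_T (-1) ω
  comm := C.comm
  inj := C.zz_inj
  o := St.o
  V := St.V
  V_nonneg := St.V_nonneg
  V_super := St.V_super
  V_o := St.V_o
  V_gap := St.V_gap

/-- a group with a configuration does not have the heat property -/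
theorem not_heat (C : Conf G X) : ¬ Heat G := WD.not_heat C.wd

end Conf

end Pool.Agent.Helper31.HT
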