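import Pool.Agent.R499.HT.Stm
import Pool.Agent.R796.HT.BS
import Pool.Agent.R961.HTNorm

/-!
The heat property with respect to `d` forces `d` to be large on average on boxes of free abelian
subgroups.
-/

set_option autoImplicit false
set_option linter.unusedSectionVars false

namespace Pool.Agent.Helper31.HT

open Pool.Agent.R499.HT Filter Topology
open Pool.Agent.R961.HTNorm (lam_mul lam_one lam_norm lam_inner)

variable {G : Type} [Group G]

/-- the sum of the basis vectors of a finite set -/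
noncomputable def vs (B : Finset G) : L2 G := ∑ u ∈ B, bas G u

theorem inner_vs (B : Finset G) (f : L2 G) : inner ℂ (vs B) f = ∑ u ∈ B, f u := by
  unfold vs
  rw [sum_inner]
  exact Finset.sum_congr rfl fun u _ => bas_inner u f

theorem vs_apply (B : Finset G) {u : G} (hu : u ∈ B) : (vs B) u = 1 := by
  classical
  rw [← bas_inner]
  unfold vs
  rw [inner_sum, Finset.sum_eq_single u]
  · rw [inner_self_eq_norm_sq_to_K, (bas G).orthonormal.norm_eq_one]
    norm_num
  · intro b _ hb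
    exact (bas G).orthonormal.inner_eq_zero hb.symm
  · intro h
    exact absurd hu h

theorem norm_vs (B : Finset G) : ‖vs B‖ = Real.sqrt B.card := by
  have h1 : inner ℂ (vs B) (vs B) = (B.card : ℂ) := by
    have h0 : ∑ u ∈ B, (vs B) u = ∑ u ∈ B, (1 : ℂ) :=
      Finset.sum_congr rfl fun u hu => vs_apply B hu
    rw [inner_vs, h0]
    simp
  have h2 : ((‖vs B‖ ^ 2 : ℝ) : ℂ) = inner ℂ (vs B) (vs B) := by
    rw [inner_self_eq_norm_sq_to_K]; norm_cast
  rw [h1] at h2
  have h3 : ‖vs B‖ ^ 2 = B.card := by exact_mod_cast h2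
  rw [← h3, Real.sqrt_sq (norm_nonneg _)]

/-- a lower bound of the norm -/
theorem low {ι : Type} (S : Finset ι) (γ : ι → G) (c : ι → ℝ) (hc : ∀ i, 0 ≤ c i)
    (B B' : Finset G) (hB : ∀ i ∈ S, ∀ y ∈ B', (γ i)⁻¹ * y ∈ B) :
    (∑ i ∈ S, c i) * B'.card ≤
      ‖∑ i ∈ S, (c i : ℂ) • (lam (γ i) : L2 G →L[ℂ] L2 G)‖ *
        (Real.sqrt B.card * Real.sqrt B'.card) := by
  set A : L2 G →L[ℂ] L2 G := ∑ i ∈ S, (c i : ℂ) • lam (γ i) with hA
  have h1 : inner ℂ (vs B') (A (vs B)) = (((∑ i ∈ S, c i) * B'.card : ℝ) : ℂ) := by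
    rw [inner_vs]
    have h2 : ∀ y ∈ B', (A (vs B)) y = ((∑ i ∈ S, c i : ℝ) : ℂ) := by
      intro y hy
      rw [← bas_inner, hA]
      rw [_root_.sum_apply, inner_sum]
      push_cast
      refine Finset.sum_congr rfl fun i hi => ?_
      have h3 : ((c i : ℂ) • (lam (γ i) : L2 G →L[ℂ] L2 G)) (vs B) = (c i : ℂ) • lam (γ i) (vs B) := rfl
      have h4 : inner ℂ (bas G y) (((c i : ℂ) • (lam (γ i) : L2 G →L[ℂ] L2 G)) (vs B)) = (c i : ℂ) := by
        rw [h3, inner_smul_right, bas_inner, lam_apply, vs_apply B (hB i hi y hy), mul_one]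
      exact h4
    rw [Finset.sum_congr rfl h2, Finset.sum_const, nsmul_eq_mul]
    push_cast
    ring
  have h2 : ‖inner ℂ (vs B') (A (vs B))‖ ≤ ‖vs B'‖ * (‖A‖ * ‖vs B‖) :=
    (norm_inner_le_norm _ _).trans (mul_le_mul_of_nonneg_left (A.le_opNorm _) (norm_nonneg _))
  rw [h1, Complex.norm_real, Real.norm_of_nonneg
    (mul_nonneg (Finset.sum_nonneg fun i _ => hc i) (Nat.cast_nonneg _)), norm_vs, norm_vs] at h2
  linarith

/-- the heat property forces `d` to be large on average -/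
theorem HL (d : G → ℝ) (hH : HeatFor d) {t : ℝ} (ht : 0 < t) :
    ∃ C : ℝ, 0 < C ∧ ∀ (I : Type) [Fintype I] [Nonempty I] (γ : I → G),
      Function.Injective γ → ∀ (σ : I → ℝ), (∀ i, σ i = 1 ∨ σ i = -1) →
      (∀ (S : Finset I) (c : I → ℝ), (∀ i, 0 ≤ c i) →
        ∑ i ∈ S, c i ≤ ‖∑ i ∈ S, (c i : ℂ) • (lam (γ i) : L2 G →L[ℂ] L2 G)‖) →
      ∀ (K : ℝ), 0 < K → ‖∑ i, (σ i : ℂ) • (lam (γ i) : L2 G →L[ℂ] L2 G)‖ ≤ K →
      (Real.log (Fintype.card I) - Real.log (2 * C * K)) / t ≤ (∑ i, d (γ i)) / Fintype.card I := by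
  classical
  obtain ⟨M, hM1, hM2⟩ := hH t ht
  obtain ⟨C0, hC0, hC⟩ := Pool.Agent.R796.HT.BS G d t M hM1 hM2
  refine ⟨C0, hC0, ?_⟩
  intro I _ _ γ hγ σ hσ hlow K hK hup
  have hcardpos : (0 : ℝ) < Fintype.card I := by exact_mod_cast Fintype.card_pos
  -- one sign
  have hsgn : ∀ s : ℝ, (s = 1 ∨ s = -1) →
      ∑ i ∈ Finset.univ.filter (fun i => σ i = s), Real.exp (-(t * d (γ i))) ≤ C0 * K := by
    intro s hs
    have h1 := hlow (Finset.univ.filter (fun i => σ i = s)) (fun i => Real.exp (-(t * d (γ i))))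
      (fun _ => (Real.exp_pos _).le)
    have h2 := hC (Finset.univ.map ⟨γ, hγ⟩)
      ((Finset.univ.filter (fun i => σ i = s)).map ⟨γ, hγ⟩)
      (fun g => ((if h : ∃ i, γ i = g then σ h.choose else 0 : ℝ) : ℂ))
      (Finset.map_subset_map.2 (Finset.filter_subset _ _))
    rw [Finset.sum_map, Finset.sum_map] at h2
    simp only [Function.Embedding.coeFn_mk] at h2
    have hch : ∀ i, (if h : ∃ j, γ j = γ i then σ h.choose else 0 : ℝ) = σ i := by
      intro i
      have h : ∃ j, γ j = γ i := ⟨i, rfl⟩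
      rw [dif_pos h, hγ h.choose_spec]
    simp only [hch] at h2
    have h4 : ‖∑ i ∈ Finset.univ.filter (fun i => σ i = s),
        (((Real.exp (-(t * d (γ i))) : ℝ) : ℂ) * ((σ i : ℝ) : ℂ)) • (lam (γ i) : L2 G →L[ℂ] L2 G)‖ =
        ‖∑ i ∈ Finset.univ.filter (fun i => σ i = s),
          ((Real.exp (-(t * d (γ i))) : ℝ) : ℂ) • (lam (γ i) : L2 G →L[ℂ] L2 G)‖ := by
      have h5 : ∑ i ∈ Finset.univ.filter (fun i => σ i = s),
          (((Real.exp (-(t * d (γ i))) : ℝ) : ℂ) * ((σ i : ℝ) : ℂ)) •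
            (lam (γ i) : L2 G →L[ℂ] L2 G) =
          (s : ℂ) • ∑ i ∈ Finset.univ.filter (fun i => σ i = s),
            ((Real.exp (-(t * d (γ i))) : ℝ) : ℂ) • (lam (γ i) : L2 G →L[ℂ] L2 G) := by
        rw [Finset.smul_sum]
        refine Finset.sum_congr rfl fun i hi => ?_
        rw [(Finset.mem_filter.1 hi).2, smul_smul, mul_comm]
      rw [h5, norm_smul]
      rcases hs with rfl | rfl <;> simp
    rw [h4] at h2
    calc _ ≤ _ := h1
      _ ≤ _ := h2
      _ ≤ C0 * K := mul_le_mul_of_nonneg_left hup hC0.le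
  have hsum : ∑ i, Real.exp (-(t * d (γ i))) ≤ 2 * C0 * K := by
    rw [← Finset.sum_filter_add_sum_filter_not Finset.univ (fun i => σ i = 1)]
    have h1 := hsgn 1 (Or.inl rfl)
    have h2 := hsgn (-1) (Or.inr rfl)
    have h3 : Finset.univ.filter (fun i => ¬ σ i = 1) = Finset.univ.filter (fun i => σ i = -1) := by
      refine Finset.filter_congr fun i _ => ?_
      constructor
      · intro h
        exact (hσ i).resolve_left h
      · intro h h'
        rw [h] at h'
        norm_num at h'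
    rw [h3]
    linarith
  -- Jensen
  set A : ℝ := (∑ i, d (γ i)) / Fintype.card I with hA
  have hJ : Real.exp (-(t * A)) ≤ (∑ i, Real.exp (-(t * d (γ i)))) / Fintype.card I := by
    have h1 := convexOn_exp.map_sum_le (t := Finset.univ) (w := fun _ => (Fintype.card I : ℝ)⁻¹)
      (p := fun i => -(t * d (γ i))) (fun _ _ => by positivity)
      (by rw [Finset.sum_const, nsmul_eq_mul, Finset.card_univ, mul_inv_cancel₀ hcardpos.ne'])
      (fun _ _ => Set.mem_univ _)
    simp only [smul_eq_mul] at h1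
    rw [← Finset.mul_sum, ← Finset.mul_sum, Finset.sum_neg_distrib, ← Finset.mul_sum] at h1
    have h2 : (Fintype.card I : ℝ)⁻¹ * -(t * ∑ i, d (γ i)) = -(t * A) := by
      rw [hA]
      field_simp
    rw [h2] at h1
    rw [div_eq_inv_mul]
    exact h1
  have hfin : Real.exp (-(t * A)) ≤ 2 * C0 * K / Fintype.card I :=
    hJ.trans (div_le_div_of_nonneg_right hsum hcardpos.le)
  have hlog := Real.log_le_log (Real.exp_pos _) hfin
  rw [Real.log_exp, Real.log_div (by positivity) hcardpos.ne'] at hlog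
  rw [div_le_iff₀ ht]
  linarith

/-! ### boxes -/

/-- the product of powers -/
def zz {m : ℕ} (c : Fin m → G) (k : Fin m → ℤ) : G := (List.ofFn fun i => c i ^ k i).prod

theorem zz_zero (c : Fin 0 → G) (k : Fin 0 → ℤ) : zz c k = 1 := by
  unfold zz; simp

theorem zz_succ {m : ℕ} (c : Fin (m + 1) → G) (k : Fin (m + 1) → ℤ) :
    zz c k = c 0 ^ k 0 * zz (fun i => c i.succ) (fun i => k i.succ) := by
  unfold zz
  rw [List.ofFn_succ, List.prod_cons]

theorem zz_comm {m : ℕ} (c : Fin m → G) (k : Fin m → ℤ) (x : G) (h : ∀ i, Commute x (c i)) :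
    Commute x (zz c k) := by
  induction m with
  | zero => rw [zz_zero]; exact Commute.one_right x
  | succ m ih =>
    rw [zz_succ]
    exact ((h 0).zpow_right _).mul_right (ih _ _ fun i => h i.succ)

theorem zz_mul {m : ℕ} (c : Fin m → G) (hc : ∀ i j, Commute (c i) (c j)) (k k' : Fin m → ℤ) :
    zz c k * zz c k' = zz c (fun i => k i + k' i) := by
  induction m with
  | zero => simp [zz_zero]
  | succ m ih =>
    rw [zz_succ, zz_succ, zz_succ]
    have h1 : Commute (c 0 ^ k' 0) (zz (fun i => c i.succ) (fun i => k i.succ)) :=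
      zz_comm _ _ _ fun i => (hc 0 i.succ).zpow_left _
    calc c 0 ^ k 0 * zz (fun i => c i.succ) (fun i => k i.succ) *
          (c 0 ^ k' 0 * zz (fun i => c i.succ) (fun i => k' i.succ))
        = c 0 ^ k 0 * (zz (fun i => c i.succ) (fun i => k i.succ) * c 0 ^ k' 0) *
          zz (fun i => c i.succ) (fun i => k' i.succ) := by group
      _ = c 0 ^ k 0 * (c 0 ^ k' 0 * zz (fun i => c i.succ) (fun i => k i.succ)) *
          zz (fun i => c i.succ) (fun i => k' i.succ) := by rw [h1.eq]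
      _ = c 0 ^ (k 0 + k' 0) * (zz (fun i => c i.succ) (fun i => k i.succ) *
          zz (fun i => c i.succ) (fun i => k' i.succ)) := by rw [zpow_add]; group
      _ = _ := by rw [ih _ fun i j => hc i.succ j.succ]

theorem zz_inv {m : ℕ} (c : Fin m → G) (hc : ∀ i j, Commute (c i) (c j)) (k : Fin m → ℤ) :
    (zz c k)⁻¹ = zz c (fun i => - k i) := by
  rw [inv_eq_iff_mul_eq_one, zz_mul c hc]
  have : ∀ (m : ℕ) (c : Fin m → G), zz c (fun _ => (0 : ℤ)) = 1 := by
    intro m
    induction m with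
    | zero => intro c; exact zz_zero _ _
    | succ m ih => intro c; rw [zz_succ, ih]; simp
  simp only [add_neg_cancel]
  exact this m c

theorem sum_cons {M : Type*} [AddCommMonoid M] {m : ℕ} {A : Type} [Fintype A]
    (F : (Fin (m + 1) → A) → M) :
    ∑ e : Fin (m + 1) → A, F e = ∑ a : A, ∑ e' : Fin m → A, F (Fin.cons a e') := by
  rw [← Fintype.sum_prod_type (f := fun p : A × (Fin m → A) => F (Fin.cons p.1 p.2))]
  exact ((Fin.consEquiv (fun _ => A)).sum_comp F).symm

/-- the exponents `-3, -1, 1, 3` -/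
def ex (e : Fin 4) : ℤ := 2 * (e : ℕ) - 3

/-- the Rudin-Shapiro signs -/
def rs (e : Fin 4) : ℝ := if e = 3 then -1 else 1

/-- the points of the box -/
def bx {m : ℕ} (c : Fin m → G) (x : G) (e : Fin m → Fin 4) : G := zz c (fun i => ex (e i)) * x

theorem rs_norm (c : G) : ‖∑ e : Fin 4, (rs e : ℂ) • (lam (c ^ ex e) : L2 G →L[ℂ] L2 G)‖ ≤
    Real.sqrt 8 := by
  refine ContinuousLinearMap.opNorm_le_bound _ (Real.sqrt_nonneg _) fun f => ?_
  rw [_root_.sum_apply, Fin.sum_univ_four]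
  simp only [_root_.smul_apply]
  set v₀ := lam (c ^ ex 0) f with h0
  set v₁ := lam (c ^ ex 1) f with h1
  have e2 : lam (c ^ ex 2) f = lam (c ^ (4 : ℤ)) v₀ := by
    rw [h0, ← lam_mul, ← zpow_add]; rfl
  have e3 : lam (c ^ ex 3) f = lam (c ^ (4 : ℤ)) v₁ := by
    rw [h1, ← lam_mul, ← zpow_add]; rfl
  rw [e2, e3]
  set U := (lam (c ^ (4 : ℤ)) : L2 G →L[ℂ] L2 G) with hU
  have hrs : (rs 0 : ℂ) = 1 ∧ (rs 1 : ℂ) = 1 ∧ (rs 2 : ℂ) = 1 ∧ (rs 3 : ℂ) = -1 := by
    refine ⟨?_, ?_, ?_, ?_⟩ <;> norm_num [rs] <;> decide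
  rw [hrs.1, hrs.2.1, hrs.2.2.1, hrs.2.2.2]
  have h4 : (1 : ℂ) • v₀ + (1 : ℂ) • v₁ + (1 : ℂ) • U v₀ + (-1 : ℂ) • U v₁ =
      (v₀ + v₁) + U (v₀ - v₁) := by
    rw [map_sub]; simp only [one_smul, neg_smul]; abel
  rw [h4]
  have h5 := parallelogram_law_with_norm ℂ (v₀ + v₁) (U (v₀ - v₁))
  have h6 := parallelogram_law_with_norm ℂ v₀ v₁
  have h7 : ‖U (v₀ - v₁)‖ = ‖v₀ - v₁‖ := lam_norm _ _
  have h8 : ‖v₀‖ = ‖f‖ := lam_norm _ _
  have h9 : ‖v₁‖ = ‖f‖ := lam_norm _ _
  rw [h7] at h5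
  rw [h8, h9] at h6
  have h10 : ‖v₀ + v₁ + U (v₀ - v₁)‖ ^ 2 ≤ (Real.sqrt 8 * ‖f‖) ^ 2 := by
    rw [mul_pow, Real.sq_sqrt (by norm_num)]
    have h11 := mul_self_nonneg ‖v₀ + v₁ - U (v₀ - v₁)‖
    nlinarith
  exact le_of_sq_le_sq h10 (by positivity)

theorem rs_box {m : ℕ} (c : Fin m → G) (x : G) :
    ‖∑ e : Fin m → Fin 4, ((∏ i, rs (e i) : ℝ) : ℂ) • (lam (bx c x e) : L2 G →L[ℂ] L2 G)‖ ≤
      Real.sqrt 8 ^ m := by
  induction m with
  | zero =>
    rw [Fintype.sum_unique, pow_zero]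
    simp only [Finset.univ_eq_empty, Finset.prod_empty, Complex.ofReal_one, one_smul]
    refine ContinuousLinearMap.opNorm_le_bound _ zero_le_one fun f => ?_
    rw [lam_norm, one_mul]
  | succ m ih =>
    rw [sum_cons]
    have h1 : ∑ a : Fin 4, ∑ e' : Fin m → Fin 4,
        ((∏ i, rs ((Fin.cons a e' : Fin (m + 1) → Fin 4) i) : ℝ) : ℂ) •
          (lam (bx c x (Fin.cons a e')) : L2 G →L[ℂ] L2 G) =
        (∑ a : Fin 4, (rs a : ℂ) • (lam (c 0 ^ ex a) : L2 G →L[ℂ] L2 G)) *
        ∑ e' : Fin m → Fin 4, ((∏ i, rs (e' i) : ℝ) : ℂ) •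
          (lam (bx (fun i => c i.succ) x e') : L2 G →L[ℂ] L2 G) := by
      rw [Finset.sum_mul]
      refine Finset.sum_congr rfl fun a _ => ?_
      rw [Finset.mul_sum]
      refine Finset.sum_congr rfl fun e' _ => ?_
      rw [Fin.prod_univ_succ]
      simp only [Fin.cons_zero, Fin.cons_succ]
      have h2 : bx c x (Fin.cons a e') = c 0 ^ ex a * bx (fun i => c i.succ) x e' := by
        unfold bx
        rw [zz_succ]
        simp only [Fin.cons_zero, Fin.cons_succ]
        rw [mul_assoc]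
      rw [h2, smul_mul_smul_comm]
      push_cast
      congr 1
      ext1 f
      rw [lam_mul]
      rfl
    rw [h1]
    refine (norm_mul_le _ _).trans ?_
    rw [pow_succ, mul_comm (Real.sqrt 8 ^ m)]
    exact mul_le_mul (rs_norm _) (ih _) (norm_nonneg _) (Real.sqrt_nonneg _)

/-- the lower bound on boxes -/
theorem low_box {m : ℕ} (c : Fin m → G) (hc : ∀ i j, Commute (c i) (c j))
    (hinj : Function.Injective (zz c)) (x : G) (S : Finset (Fin m → Fin 4))
    (w : (Fin m → Fin 4) → ℝ) (hw : ∀ i, 0 ≤ w i) :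
    ∑ e ∈ S, w e ≤ ‖∑ e ∈ S, (w e : ℂ) • (lam (bx c x e) : L2 G →L[ℂ] L2 G)‖ := by
  classical
  set N := ‖∑ e ∈ S, (w e : ℂ) • (lam (bx c x e) : L2 G →L[ℂ] L2 G)‖ with hN
  have hN0 : 0 ≤ N := norm_nonneg _
  set s := ∑ e ∈ S, w e with hs
  have hs0 : 0 ≤ s := Finset.sum_nonneg fun i _ => hw i
  have key : ∀ n : ℕ, 0 < n → s ^ 2 ≤ N ^ 2 * (1 + 3 / (n : ℝ)) ^ m := by
    intro n hn
    have hnr : (0 : ℝ) < n := by exact_mod_cast hn
    have hi1 : Function.Injective (fun k : Fin m → Fin (n + 3) =>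
        x⁻¹ * zz c (fun i => 2 * ((k i : ℕ) : ℤ))) := by
      intro k k' h
      have h1 := hinj (mul_left_cancel h)
      funext i
      have h2 := congrFun h1 i
      apply Fin.ext
      omega
    have hi2 : Function.Injective (fun k : Fin m → Fin n =>
        zz c (fun i => 2 * ((k i : ℕ) : ℤ) + 3)) := by
      intro k k' h
      have h1 := hinj h
      funext i
      have h2 := congrFun h1 i
      apply Fin.ext
      omega
    have h1 := low S (bx c x) w hw
      (Finset.univ.map ⟨_, hi1⟩) (Finset.univ.map ⟨_, hi2⟩) (by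
        intro e _ y hy
        rw [Finset.mem_map] at hy
        obtain ⟨k, -, rfl⟩ := hy
        rw [Finset.mem_map]
        refine ⟨fun i => ⟨(k i : ℕ) + 3 - (e i : ℕ), by have := (k i).2; omega⟩,
          Finset.mem_univ _, ?_⟩
        simp only [Function.Embedding.coeFn_mk]
        unfold bx
        rw [mul_inv_rev, zz_inv c hc, mul_assoc, zz_mul c hc]
        congr 2
        funext i
        have h2 := (e i).2
        unfold ex
        push_cast [Nat.cast_sub (show (e i : ℕ) ≤ (k i : ℕ) + 3 by omega)]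
        ring)
    rw [Finset.card_map, Finset.card_map, Finset.card_univ, Finset.card_univ, Fintype.card_fun,
      Fintype.card_fun, Fintype.card_fin, Fintype.card_fin, Fintype.card_fin, ← hs, ← hN] at h1
    push_cast at h1
    set p : ℝ := (n : ℝ) ^ m with hp
    set q : ℝ := ((n : ℝ) + 3) ^ m with hq
    have hp0 : 0 < p := by positivity
    have hq0 : 0 < q := by positivity
    have h2 : (s * p) ^ 2 ≤ (N * (Real.sqrt q * Real.sqrt p)) ^ 2 :=
      pow_le_pow_left₀ (by positivity) h1 2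
    have h3 : (N * (Real.sqrt q * Real.sqrt p)) ^ 2 = N ^ 2 * (q * p) := by
      rw [mul_pow, mul_pow, Real.sq_sqrt hq0.le, Real.sq_sqrt hp0.le]
    rw [h3] at h2
    have h4 : (1 + 3 / (n : ℝ)) ^ m = q / p := by
      rw [hq, hp, ← div_pow]
      congr 1
      field_simp
    rw [h4, ← mul_div_assoc, le_div_iff₀ hp0]
    have h5 : (s * p) ^ 2 = s ^ 2 * p * p := by ring
    rw [h5, ← mul_assoc] at h2
    exact le_of_mul_le_mul_right h2 hp0
  have hlim : Tendsto (fun n : ℕ => N ^ 2 * (1 + 3 / (n : ℝ)) ^ m) atTop (𝓝 (N ^ 2 * (1 + 0) ^ m)) :=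
    ((tendsto_const_nhds.add (tendsto_const_div_atTop_nhds_zero_nat 3)).pow m).const_mul _
  rw [add_zero, one_pow, mul_one] at hlim
  have h1 : s ^ 2 ≤ N ^ 2 := by
    refine ge_of_tendsto hlim ?_
    filter_upwards [eventually_gt_atTop 0] with n hn
    exact key n hn
  exact le_of_sq_le_sq h1 hN0

/-- the average of `d` on boxes is large -/
theorem HB (d : G → ℝ) (hH : HeatFor d) {t : ℝ} (ht : 0 < t) :
    ∃ C : ℝ, ∀ (m : ℕ) (c : Fin m → G), (∀ i j, Commute (c i) (c j)) →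
      Function.Injective (zz c) → ∀ x : G,
      (m * (Real.log 2 / 2) - C) / t ≤ (∑ e : Fin m → Fin 4, d (bx c x e)) / 4 ^ m := by
  obtain ⟨C, hC, h⟩ := HL d hH ht
  refine ⟨Real.log (2 * C), fun m c hc hinj x => ?_⟩
  have hinj' : Function.Injective (bx c x) := by
    intro e e' he
    have h1 := hinj (mul_right_cancel he)
    funext i
    have h2 := congrFun h1 i
    unfold ex at h2
    apply Fin.ext
    omega
  have h1 := h (Fin m → Fin 4) (bx c x) hinj' (fun e => ∏ i, rs (e i)) (fun e => ?_)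
    (fun S w hw => low_box c hc hinj x S w hw) (Real.sqrt 8 ^ m) (by positivity) (rs_box c x)
  · rw [Fintype.card_fun, Fintype.card_fin, Fintype.card_fin] at h1
    push_cast at h1
    refine le_trans (le_of_eq ?_) h1
    have hl4 : Real.log (4 ^ m) = m * (2 * Real.log 2) := by
      rw [Real.log_pow, show (4 : ℝ) = 2 ^ 2 by norm_num, Real.log_pow]
      push_cast
      ring
    have hl8 : Real.log (2 * C * Real.sqrt 8 ^ m) = Real.log (2 * C) + m * (3 / 2 * Real.log 2) := by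
      rw [Real.log_mul (by positivity) (by positivity), Real.log_pow, Real.log_sqrt (by norm_num),
        show (8 : ℝ) = 2 ^ 3 by norm_num, Real.log_pow]
      push_cast
      ring
    rw [hl4, hl8]
    congr 1
    ring
  · have h2 : ∀ (m : ℕ) (e : Fin m → Fin 4), (∏ i, rs (e i) = 1) ∨ (∏ i, rs (e i) = -1) := by
      intro m
      induction m with
      | zero => intro e; left; simp
      | succ m ih =>
        intro e
        rw [Fin.prod_univ_succ]
        have h3 : rs (e 0) = 1 ∨ rs (e 0) = -1 := by unfold rs; split_ifs <;> simp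
        rcases h3 with h3 | h3 <;> rcases ih (fun i => e i.succ) with h4 | h4 <;>
          rw [h3, h4] <;> norm_num
    exact h2 m e

end Pool.Agent.Helper31.HT
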