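import Pool.Agent.Helper31.HT.HL
import Pool.Agent.R567.HT.UP

/-!
A group with infinitely many commuting lamps, permuted by a transient walk, does not have the heat
property.
-/

set_option autoImplicit false
set_option linter.unusedSectionVars false

namespace Pool.Agent.Helper31.HT

open Pool.Agent.R499.HT

/-- lamps `c ω`, permuted by the four elements `gen i`, with a superharmonic function `V` -/
structure WD (G : Type) [Group G] (Ω : Type) where
  gen : Fin 4 → G
  inv : Fin 4 → Fin 4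
  inv_inv : ∀ i, inv (inv i) = i
  gen_inv : ∀ i, gen (inv i) = (gen i)⁻¹
  act : Fin 4 → Ω → Ω
  act_inv : ∀ i ω, act (inv i) (act i ω) = ω
  c : Ω → G
  c_act : ∀ i ω, gen i * c ω = c (act i ω) * gen i
  comm : ∀ ω ω', Commute (c ω) (c ω')
  inj : ∀ L : List Ω, L.Nodup → Function.Injective (zz (fun i : Fin L.length => c (L.get i)))
  o : Ω
  V : Ω → ℝ
  V_nonneg : ∀ ω, 0 ≤ V ω
  V_super : ∀ ω, ∑ i, V (act i ω) ≤ 4 * V ω
  V_o : 1 ≤ V o
  V_gap : ∑ i, V (act i o) ≤ 5 / 2

namespace WD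

variable {G : Type} [Group G] {Ω : Type}

/-- the switch measure of a lamp -/
noncomputable def sw (a : G) : MonoidAlgebra ℝ G :=
  (4 : ℝ)⁻¹ • ∑ e : Fin 4, MonoidAlgebra.single (a ^ ex e) (1 : ℝ)

/-- the switch measure of a family of lamps -/
noncomputable def SWf {m : ℕ} (c : Fin m → G) : MonoidAlgebra ℝ G :=
  ((4 : ℝ) ^ m)⁻¹ • ∑ e : Fin m → Fin 4, MonoidAlgebra.single (zz c (fun i => ex (e i))) (1 : ℝ)

theorem SWf_zero (c : Fin 0 → G) : SWf c = 1 := by
  unfold SWf
  rw [Fintype.sum_unique, zz_zero, pow_zero, inv_one, one_smul]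
  rfl

theorem SWf_succ {m : ℕ} (c : Fin (m + 1) → G) :
    SWf c = sw (c 0) * SWf (fun i => c i.succ) := by
  unfold SWf sw
  rw [sum_cons, smul_mul_smul_comm, pow_succ, mul_inv_rev, Finset.sum_mul]
  congr 1
  refine Finset.sum_congr rfl fun a _ => ?_
  rw [Finset.mul_sum]
  refine Finset.sum_congr rfl fun e' _ => ?_
  rw [MonoidAlgebra.single_mul_single, mul_one, zz_succ]
  simp only [Fin.cons_zero, Fin.cons_succ]

/-- probability measures of the kind needed here -/
inductive Pr : MonoidAlgebra ℝ G → Prop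
  | sgl (x : G) : Pr (MonoidAlgebra.single x 1)
  | av (μ : Fin 4 → MonoidAlgebra ℝ G) : (∀ i, Pr (μ i)) → Pr ((4 : ℝ)⁻¹ • ∑ i, μ i)

theorem Pr_one : Pr (1 : MonoidAlgebra ℝ G) := Pr.sgl 1

theorem Pr_mul (x : G) {μ : MonoidAlgebra ℝ G} (h : Pr μ) :
    Pr (MonoidAlgebra.single x 1 * μ) := by
  induction h with
  | sgl y => rw [MonoidAlgebra.single_mul_single, mul_one]; exact Pr.sgl _
  | av μ _ ih =>
    rw [mul_smul_comm, Finset.mul_sum]
    exact Pr.av _ ih

theorem Pr_sw (a : G) {μ : MonoidAlgebra ℝ G} (h : Pr μ) : Pr (sw a * μ) := by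
  unfold sw
  rw [smul_mul_assoc, Finset.sum_mul]
  exact Pr.av _ fun e => Pr_mul _ h

variable (W : WD G Ω)

/-- the switch measure of a list of lamps -/
noncomputable def SW (L : List Ω) : MonoidAlgebra ℝ G :=
  SWf (fun i : Fin L.length => W.c (L.get i))

theorem SW_nil : W.SW [] = 1 := SWf_zero _

theorem SW_cons (ω : Ω) (L : List Ω) : W.SW (ω :: L) = sw (W.c ω) * W.SW L := SWf_succ _

theorem sw_comm (ω ω' : Ω) : sw (W.c ω) * sw (W.c ω') = sw (W.c ω') * sw (W.c ω) := by
  unfold sw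
  rw [smul_mul_smul_comm, smul_mul_smul_comm, Finset.sum_mul_sum, Finset.sum_mul_sum,
    Finset.sum_comm]
  congr 1
  refine Finset.sum_congr rfl fun a _ => Finset.sum_congr rfl fun e' _ => ?_
  rw [MonoidAlgebra.single_mul_single, MonoidAlgebra.single_mul_single,
    (((W.comm ω ω').zpow_left _).zpow_right _).eq]

theorem SW_comm (ω : Ω) (L : List Ω) : sw (W.c ω) * W.SW L = W.SW L * sw (W.c ω) := by
  induction L with
  | nil => rw [SW_nil, mul_one, one_mul]
  | cons ω' L ih => rw [SW_cons, ← mul_assoc, sw_comm, mul_assoc, ih, mul_assoc]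

theorem gen_sw (i : Fin 4) (ω : Ω) : MonoidAlgebra.single (W.gen i) (1 : ℝ) * sw (W.c ω) =
    sw (W.c (W.act i ω)) * MonoidAlgebra.single (W.gen i) 1 := by
  unfold sw
  rw [mul_smul_comm, smul_mul_assoc, Finset.mul_sum, Finset.sum_mul]
  congr 1
  refine Finset.sum_congr rfl fun a _ => ?_
  rw [MonoidAlgebra.single_mul_single, MonoidAlgebra.single_mul_single]
  have h : SemiconjBy (W.gen i) (W.c ω) (W.c (W.act i ω)) := W.c_act i ω
  rw [(h.zpow_right _).eq]

theorem gen_SW (i : Fin 4) (L : List Ω) : MonoidAlgebra.single (W.gen i) (1 : ℝ) * W.SW L =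
    W.SW (L.map (W.act i)) * MonoidAlgebra.single (W.gen i) 1 := by
  induction L with
  | nil => rw [List.map_nil, SW_nil, mul_one, one_mul]
  | cons ω' L ih =>
    rw [List.map_cons, SW_cons, SW_cons, ← mul_assoc, gen_sw, mul_assoc, ih, mul_assoc]

theorem mem_SW {ω : Ω} {L : List Ω} (h : ω ∈ L) (μ : MonoidAlgebra ℝ G) :
    sw (W.c ω) * (W.SW L * μ) = W.SW L * (sw (W.c ω) * μ) := by
  rw [← mul_assoc, SW_comm, mul_assoc]

open Classical in
/-- one step of the set of visited lamps -/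
noncomputable def step (i : Fin 4) (R : List Ω) : List Ω :=
  if W.o ∈ R.map (W.act i) then R.map (W.act i) else W.o :: R.map (W.act i)

theorem act_injective (i : Fin 4) : Function.Injective (W.act i) :=
  Function.LeftInverse.injective (g := W.act (W.inv i)) (W.act_inv i)

theorem step_nodup (i : Fin 4) {R : List Ω} (h : R.Nodup) : (W.step i R).Nodup := by
  unfold step
  have h1 : (R.map (W.act i)).Nodup := h.map (W.act_injective i)
  split_ifs with h2
  · exact h1
  · exact List.nodup_cons.2 ⟨h2, h1⟩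

theorem step_SW (i : Fin 4) (R : List Ω) {μ : MonoidAlgebra ℝ G} (h : Pr μ) :
    ∃ μ', Pr μ' ∧ sw (W.c W.o) * MonoidAlgebra.single (W.gen i) 1 * sw (W.c W.o) *
      (W.SW R * μ) = W.SW (W.step i R) * μ' := by
  have h1 : sw (W.c W.o) * MonoidAlgebra.single (W.gen i) (1 : ℝ) * sw (W.c W.o) *
      (W.SW R * μ) = sw (W.c W.o) * (W.SW (R.map (W.act i)) *
        (MonoidAlgebra.single (W.gen i) 1 * (sw (W.c W.o) * μ))) := by
    calc sw (W.c W.o) * MonoidAlgebra.single (W.gen i) (1 : ℝ) * sw (W.c W.o) * (W.SW R * μ)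
        = sw (W.c W.o) * MonoidAlgebra.single (W.gen i) (1 : ℝ) *
          (sw (W.c W.o) * W.SW R) * μ := by noncomm_ring
      _ = sw (W.c W.o) * (MonoidAlgebra.single (W.gen i) (1 : ℝ) * W.SW R) *
          (sw (W.c W.o) * μ) := by rw [SW_comm]; noncomm_ring
      _ = _ := by rw [gen_SW]; noncomm_ring
  rw [h1]
  have hp := Pr_mul (W.gen i) (Pr_sw (W.c W.o) h)
  unfold step
  split_ifs with h2
  · exact ⟨_, Pr_sw (W.c W.o) hp, by rw [mem_SW W h2]⟩
  · exact ⟨_, hp, by rw [SW_cons, mul_assoc]⟩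

/-- expectation over the visited set after `n` steps -/
noncomputable def EE : ℕ → (List Ω → ℝ) → ℝ
  | 0 => fun F => F []
  | n + 1 => fun F => (∑ i, EE n (fun R => F (W.step i R))) / 4

theorem EE_mono (n : ℕ) : ∀ {F F' : List Ω → ℝ}, (∀ R, R.Nodup → F R ≤ F' R) →
    W.EE n F ≤ W.EE n F' := by
  induction n with
  | zero => intro F F' h; exact h [] List.nodup_nil
  | succ n ih =>
    intro F F' h
    exact div_le_div_of_nonneg_right (Finset.sum_le_sum fun i _ => ih fun R hR =>
      h _ (W.step_nodup i hR)) (by norm_num)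

theorem EE_affine (n : ℕ) (a b : ℝ) : ∀ (F : List Ω → ℝ),
    W.EE n (fun R => a * F R + b) = a * W.EE n F + b := by
  induction n with
  | zero => intro F; rfl
  | succ n ih =>
    intro F
    simp only [EE]
    have h : ∀ i : Fin 4, W.EE n (fun R => a * F (W.step i R) + b) =
        a * W.EE n (fun R => F (W.step i R)) + b := fun i => ih _
    rw [Finset.sum_congr rfl fun i _ => h i, Finset.sum_add_distrib, ← Finset.mul_sum]
    simp
    ring

theorem EE_add (n : ℕ) : ∀ (F F' : List Ω → ℝ),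
    W.EE n (fun R => F R + F' R) = W.EE n F + W.EE n F' := by
  induction n with
  | zero => intro F F'; rfl
  | succ n ih =>
    intro F F'
    simp only [EE]
    have h : ∀ i : Fin 4, W.EE n (fun R => F (W.step i R) + F' (W.step i R)) =
        W.EE n (fun R => F (W.step i R)) + W.EE n (fun R => F' (W.step i R)) := fun i => ih _ _
    rw [Finset.sum_congr rfl fun i _ => h i, Finset.sum_add_distrib, add_div]

theorem EE_const (n : ℕ) (b : ℝ) : W.EE n (fun _ => b) = b := by
  have h := W.EE_affine n 0 b (fun _ => 0)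
  simpa using h

theorem sum_inv (F : Fin 4 → ℝ) : ∑ i, F (W.inv i) = ∑ i, F i :=
  (Equiv.mk W.inv W.inv W.inv_inv W.inv_inv).sum_comp F

theorem act_inv' (i : Fin 4) (ω : Ω) : W.act i (W.act (W.inv i) ω) = ω := by
  have := W.act_inv (W.inv i) ω
  rwa [W.inv_inv] at this

theorem mem_map (i : Fin 4) (ω : Ω) (R : List Ω) :
    ω ∈ R.map (W.act i) ↔ W.act (W.inv i) ω ∈ R := by
  rw [List.mem_map]
  constructor
  · rintro ⟨ω', h, rfl⟩
    rwa [W.act_inv]
  · intro h
    exact ⟨_, h, W.act_inv' i ω⟩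

open Classical in
/-- the probability that a lamp has been visited -/
noncomputable def HH (n : ℕ) (ω : Ω) : ℝ := W.EE n (fun R => if ω ∈ R then 1 else 0)

theorem HH_le (n : ℕ) : ∀ ω, W.HH n ω ≤ W.V ω := by
  classical
  induction n with
  | zero =>
    intro ω
    have : W.HH 0 ω = 0 := by
      unfold HH EE
      simp
    rw [this]
    exact W.V_nonneg ω
  | succ n ih =>
    intro ω
    by_cases h : ω = W.o
    · rw [h]
      refine le_trans ?_ W.V_o
      unfold HH
      refine le_trans (W.EE_mono (n + 1) (F' := fun _ => 1) ?_) (W.EE_const _ _).le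
      intro R _
      split_ifs <;> norm_num
    · have h1 : W.HH (n + 1) ω = (∑ i, W.HH n (W.act (W.inv i) ω)) / 4 := by
        unfold HH
        simp only [EE]
        congr 1
        refine Finset.sum_congr rfl fun i _ => ?_
        congr 1
        funext R
        have h2 : ω ∈ W.step i R ↔ W.act (W.inv i) ω ∈ R := by
          unfold step
          split_ifs with h3
          · exact W.mem_map i ω R
          · rw [List.mem_cons, W.mem_map i ω R]
            exact ⟨fun h4 => h4.resolve_left h, Or.inr⟩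
        simp only [h2]
      rw [h1, div_le_iff₀ (by norm_num)]
      calc ∑ i, W.HH n (W.act (W.inv i) ω) ≤ ∑ i, W.V (W.act (W.inv i) ω) :=
            Finset.sum_le_sum fun i _ => ih _
        _ = ∑ i, W.V (W.act i ω) := W.sum_inv (fun i => W.V (W.act i ω))
        _ ≤ 4 * W.V ω := W.V_super ω
        _ = W.V ω * 4 := mul_comm _ _

/-- the expected number of visited lamps grows linearly -/
theorem range (n : ℕ) : 3 / 8 * (n : ℝ) ≤ W.EE n (fun R => (R.length : ℝ)) := by
  classical
  induction n with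
  | zero => simp [EE]
  | succ n ih =>
    have h1 : W.EE (n + 1) (fun R => (R.length : ℝ)) =
        W.EE n (fun R => (R.length : ℝ)) + 1 - (∑ i, W.HH n (W.act (W.inv i) W.o)) / 4 := by
      simp only [EE]
      have h2 : ∀ i : Fin 4, W.EE n (fun R => ((W.step i R).length : ℝ)) =
          W.EE n (fun R => (R.length : ℝ)) + 1 - W.HH n (W.act (W.inv i) W.o) := by
        intro i
        have h3 : (fun R : List Ω => ((W.step i R).length : ℝ)) =
            fun R => (fun R : List Ω => 1 * (R.length : ℝ) + 1) R +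
              (fun R : List Ω => (-1) * (if W.act (W.inv i) W.o ∈ R then (1 : ℝ) else 0) + 0) R := by
          funext R
          have h4 := W.mem_map i W.o R
          beta_reduce
          unfold step
          by_cases h5 : W.act (W.inv i) W.o ∈ R
          · rw [if_pos (h4.2 h5), if_pos h5, List.length_map]
            ring
          · rw [if_neg (fun h6 => h5 (h4.1 h6)), if_neg h5, List.length_cons, List.length_map]
            push_cast
            ring
        rw [h3, W.EE_add, W.EE_affine, W.EE_affine]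
        unfold HH
        ring
      rw [Finset.sum_congr rfl fun i _ => h2 i, Finset.sum_sub_distrib, Finset.sum_const,
        Finset.card_univ, Fintype.card_fin]
      simp only [nsmul_eq_mul]
      push_cast
      ring
    have h2 : ∑ i, W.HH n (W.act (W.inv i) W.o) ≤ 5 / 2 := by
      calc ∑ i, W.HH n (W.act (W.inv i) W.o) ≤ ∑ i, W.V (W.act (W.inv i) W.o) :=
            Finset.sum_le_sum fun i _ => W.HH_le n _
        _ = ∑ i, W.V (W.act i W.o) := W.sum_inv (fun i => W.V (W.act i W.o))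
        _ ≤ 5 / 2 := W.V_gap
    rw [h1]
    push_cast
    linarith

/-- the walk on the four generators -/
noncomputable def sg : MonoidAlgebra ℝ G :=
  (4 : ℝ)⁻¹ • ∑ i : Fin 4, MonoidAlgebra.single (W.gen i) (1 : ℝ)

/-- switch, walk, switch -/
noncomputable def nu : MonoidAlgebra ℝ G := sw (W.c W.o) * W.sg * sw (W.c W.o)

theorem nu_eq : W.nu = (4 : ℝ)⁻¹ • ∑ i : Fin 4,
    sw (W.c W.o) * MonoidAlgebra.single (W.gen i) 1 * sw (W.c W.o) := by
  unfold nu sg
  rw [mul_smul_comm, smul_mul_assoc, Finset.mul_sum, Finset.sum_mul]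

theorem expand (n : ℕ) : ∀ (ℓ : MonoidAlgebra ℝ G →ₗ[ℝ] ℝ) (Φ : List Ω → ℝ),
    (∀ R : List Ω, R.Nodup → ∀ μ, Pr μ → Φ R ≤ ℓ (W.SW R * μ)) → W.EE n Φ ≤ ℓ (W.nu ^ n) := by
  induction n with
  | zero =>
    intro ℓ Φ h
    have := h [] List.nodup_nil 1 Pr_one
    rw [SW_nil, one_mul] at this
    rw [pow_zero]
    exact this
  | succ n ih =>
    intro ℓ Φ h
    have h1 : ∀ i : Fin 4, W.EE n (fun R => Φ (W.step i R)) ≤
        ℓ (sw (W.c W.o) * MonoidAlgebra.single (W.gen i) 1 * sw (W.c W.o) * W.nu ^ n) := by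
      intro i
      refine ih (ℓ ∘ₗ LinearMap.mulLeft ℝ (sw (W.c W.o) * MonoidAlgebra.single (W.gen i) 1 *
        sw (W.c W.o))) (fun R => Φ (W.step i R)) ?_
      intro R hR μ hμ
      obtain ⟨μ', h2, h3⟩ := W.step_SW i R hμ
      rw [LinearMap.comp_apply, LinearMap.mulLeft_apply, h3]
      exact h _ (W.step_nodup i hR) _ h2
    rw [pow_succ', nu_eq, smul_mul_assoc, Finset.sum_mul, map_smul, map_sum, smul_eq_mul,
      ← nu_eq]
    simp only [EE]
    rw [div_eq_inv_mul]
    exact mul_le_mul_of_nonneg_left (Finset.sum_le_sum fun i _ => h1 i) (by norm_num)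

theorem pair_nu (f : G → ℝ) : pair f W.nu = (64 : ℝ)⁻¹ * ∑ e : Fin 4, ∑ i : Fin 4, ∑ e' : Fin 4,
    f (W.c W.o ^ ex e * W.gen i * W.c W.o ^ ex e') := by
  unfold nu sg sw
  rw [smul_mul_smul_comm, smul_mul_smul_comm, map_smul, smul_eq_mul, Finset.sum_mul_sum,
    Finset.sum_mul]
  congr 1
  · norm_num
  · rw [map_sum]
    refine Finset.sum_congr rfl fun e _ => ?_
    rw [Finset.sum_mul_sum, map_sum]
    refine Finset.sum_congr rfl fun i _ => ?_
    rw [map_sum]
    refine Finset.sum_congr rfl fun e' _ => ?_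
    rw [MonoidAlgebra.single_mul_single, MonoidAlgebra.single_mul_single, pair_single, mul_one,
      mul_one, one_mul]

theorem ex_rev (e : Fin 4) : ex (Fin.rev e) = - ex e := by
  unfold ex
  rw [Fin.val_rev]
  have := e.2
  omega

theorem sum_rev (F : Fin 4 → ℝ) : ∑ e, F (Fin.rev e) = ∑ e, F e :=
  Equiv.sum_comp Fin.revPerm F

theorem sum_rot (F : Fin 4 → Fin 4 → Fin 4 → ℝ) :
    ∑ e, ∑ i, ∑ e', F (Fin.rev e') (W.inv i) (Fin.rev e) = ∑ e, ∑ i, ∑ e', F e i e' := by
  have h1 : ∀ e i, ∑ e', F (Fin.rev e') (W.inv i) (Fin.rev e) =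
      ∑ e', F e' (W.inv i) (Fin.rev e) := fun e i =>
    sum_rev (fun e' => F e' (W.inv i) (Fin.rev e))
  have h2 : ∀ e, ∑ i, ∑ e', F e' (W.inv i) (Fin.rev e) = ∑ i, ∑ e', F e' i (Fin.rev e) :=
    fun e => W.sum_inv (fun i => ∑ e', F e' i (Fin.rev e))
  simp only [h1, h2]
  rw [sum_rev (fun e => ∑ i, ∑ e', F e' i e), Finset.sum_comm]
  have h3 : ∀ i, ∑ e, ∑ e', F e' i e = ∑ e', ∑ e, F e' i e := fun i => Finset.sum_comm
  simp only [h3]
  rw [Finset.sum_comm]

theorem nu_symm (g : G) : W.nu.coeff g⁻¹ = W.nu.coeff g := by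
  classical
  rw [Pool.Agent.R567.HT.coeff_eq_pair, Pool.Agent.R567.HT.coeff_eq_pair, pair_nu, pair_nu]
  congr 1
  have h1 : ∀ e i e', (if W.c W.o ^ ex e * W.gen i * W.c W.o ^ ex e' = g⁻¹ then (1 : ℝ) else 0) =
      if W.c W.o ^ ex (Fin.rev e') * W.gen (W.inv i) * W.c W.o ^ ex (Fin.rev e) = g
        then (1 : ℝ) else 0 := by
    intro e i e'
    have h2 : (W.c W.o ^ ex e * W.gen i * W.c W.o ^ ex e' = g⁻¹) ↔
        (W.c W.o ^ ex (Fin.rev e') * W.gen (W.inv i) * W.c W.o ^ ex (Fin.rev e) = g) := by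
      rw [ex_rev, ex_rev, W.gen_inv, zpow_neg, zpow_neg, mul_assoc _ _ (W.c W.o ^ ex e)⁻¹,
        ← mul_inv_rev, ← mul_inv_rev]
      constructor
      · intro h; rw [h, _root_.inv_inv]
      · intro h; rw [← h, _root_.inv_inv]
    simp only [h2]
  simp only [h1]
  exact W.sum_rot (fun e i e' => if W.c W.o ^ ex e * W.gen i * W.c W.o ^ ex e' = g
    then (1 : ℝ) else 0)

theorem nu_mass : pair (fun _ => (1 : ℝ)) W.nu = 1 := by
  rw [pair_nu]
  simp
  norm_num

theorem pair_SW (d : G → ℝ) {m : ℕ} (c : Fin m → G) (x : G) :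
    pair d (SWf c * MonoidAlgebra.single x 1) =
      (∑ e : Fin m → Fin 4, d (bx c x e)) / 4 ^ m := by
  unfold SWf
  rw [smul_mul_assoc, map_smul, smul_eq_mul, Finset.sum_mul, map_sum, div_eq_inv_mul]
  congr 1
  refine Finset.sum_congr rfl fun e _ => ?_
  rw [MonoidAlgebra.single_mul_single, pair_single, mul_one, one_mul]
  rfl

theorem low_SW (d : G → ℝ) (L : List Ω) (b : ℝ)
    (h : ∀ x, b ≤ pair d (W.SW L * MonoidAlgebra.single x 1)) {μ : MonoidAlgebra ℝ G}
    (hμ : Pr μ) : b ≤ pair d (W.SW L * μ) := by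
  induction hμ with
  | sgl x => exact h x
  | av μ _ ih =>
    rw [mul_smul_comm, map_smul, Finset.mul_sum, map_sum, smul_eq_mul]
    have h1 : (4 : ℝ) * b ≤ ∑ i : Fin 4, pair d (W.SW L * μ i) := by
      have h2 : ∑ i : Fin 4, b ≤ ∑ i : Fin 4, pair d (W.SW L * μ i) :=
        Finset.sum_le_sum fun i _ => ih i
      rw [Finset.sum_const, Finset.card_univ, Fintype.card_fin, nsmul_eq_mul] at h2
      push_cast at h2
      exact h2
    linarith

/-- a group with such lamps does not have the heat property -/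
theorem not_heat (W : WD G Ω) : ¬ Heat G := by
  rintro ⟨d, hd, hh⟩
  set C0 := pair d W.nu with hC0
  have hl : 0 < Real.log 2 := Real.log_pos (by norm_num)
  have hpos : 0 < |C0| + 1 := by positivity
  set t : ℝ := 3 / 16 * Real.log 2 / (|C0| + 1) with ht
  have htpos : 0 < t := by positivity
  obtain ⟨C, hC⟩ := HB d hh htpos
  have h1 : ∀ n : ℕ, (Real.log 2 / 2 / t) * (3 / 8 * n) - C / t ≤ pair d (W.nu ^ n) := by
    intro n
    refine le_trans ?_ (W.expand n (pair d) (fun R => (Real.log 2 / 2 / t) * (R.length : ℝ) +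
      (-(C / t))) ?_)
    · rw [W.EE_affine]
      have h2 := mul_le_mul_of_nonneg_left (W.range n)
        (by positivity : 0 ≤ Real.log 2 / 2 / t)
      linarith
    · intro R hR μ hμ
      refine W.low_SW d R _ ?_ hμ
      intro x
      unfold SW
      rw [pair_SW]
      refine le_trans (le_of_eq ?_) (hC R.length (fun i => W.c (R.get i))
        (fun i j => W.comm _ _) (W.inj R hR) x)
      field_simp
      ring
  have h3 : ∀ k : ℕ, 2 ^ k * C0 ≥ (Real.log 2 / 2 / t) * (3 / 8 * 2 ^ k) - C / t := by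
    intro k
    have h4 := Pool.Agent.R567.HT.up G d hd W.nu W.nu_symm W.nu_mass k
    have h5 := h1 (2 ^ k)
    push_cast at h5
    linarith
  have h10 : Real.log 2 / 2 / t * (3 / 8) = |C0| + 1 := by
    rw [ht]
    field_simp
    ring
  have h11 : ∀ k : ℕ, (2 : ℝ) ^ k ≤ C / t := by
    intro k
    have h12 := h3 k
    have h13 : Real.log 2 / 2 / t * (3 / 8 * 2 ^ k) = (|C0| + 1) * 2 ^ k := by
      rw [← h10]; ring
    rw [h13] at h12
    have h14 : C0 ≤ |C0| := le_abs_self _
    have h15 : (0 : ℝ) < 2 ^ k := by positivity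
    nlinarith
  obtain ⟨k, hk⟩ := pow_unbounded_of_one_lt (C / t) (by norm_num : (1 : ℝ) < 2)
  exact absurd (h11 k) (not_le.2 hk)

end WD

end Pool.Agent.Helper31.HT
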